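import Mathlib

namespace Pool.Agent.Results.MP_4595ea_al.EssentialRightNotIdeal

open scoped TensorProduct

/-- `R` is torsion-free of finite rank: the additive group of `R` is torsion-free and
`ℚ ⊗ R` is a finite-dimensional rational vector space. -/
def TorsionFreeFiniteRank (R : Type) [Ring R] : Prop :=
  (∀ (n : ℤ) (a : R), n ≠ 0 → n • a = 0 → a = 0) ∧ Module.Finite ℚ (ℚ ⊗[ℤ] R)

/-- `R` is centrally essential: every nonzero `a` has a nonzero central multiple `a * x = y`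
with `x` a nonzero central element. -/
def CentrallyEssential (R : Type) [Ring R] : Prop :=
  ∀ a : R, a ≠ 0 → ∃ x y : R, x ∈ Subring.center R ∧ y ∈ Subring.center R ∧
    x ≠ 0 ∧ y ≠ 0 ∧ a * x = y

/-- A right ideal of `R` (a submodule of `R` over the opposite ring) is essential if it meets
every nonzero right ideal nontrivially. -/
def EssentialRightIdeal {R : Type} [Ring R] (I : Submodule Rᵐᵒᵖ R) : Prop :=
  ∀ J : Submodule Rᵐᵒᵖ R, J ≠ ⊥ → I ⊓ J ≠ ⊥

/-- The example: the free abelian group with basis `1, u, v, c, w, z`. -/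
@[ext]
structure E where
  q : ℤ
  u : ℤ
  v : ℤ
  c : ℤ
  w : ℤ
  z : ℤ

namespace E

instance : Zero E := ⟨⟨0, 0, 0, 0, 0, 0⟩⟩
instance : One E := ⟨⟨1, 0, 0, 0, 0, 0⟩⟩
instance : Add E := ⟨fun x y => ⟨x.q + y.q, x.u + y.u, x.v + y.v, x.c + y.c, x.w + y.w, x.z + y.z⟩⟩
instance : Neg E := ⟨fun x => ⟨-x.q, -x.u, -x.v, -x.c, -x.w, -x.z⟩⟩

/-- Multiplication: `u v = w`, `v u = 0`, `u c = c u = w`, `v c = c v = z`, all other products of
basis elements different from `1` vanish. -/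
instance : Mul E := ⟨fun x y =>
  ⟨x.q * y.q,
   x.q * y.u + x.u * y.q,
   x.q * y.v + x.v * y.q,
   x.q * y.c + x.c * y.q,
   x.q * y.w + x.w * y.q + x.u * y.v + x.u * y.c + x.c * y.u,
   x.q * y.z + x.z * y.q + x.v * y.c + x.c * y.v⟩⟩

@[simp] lemma zero_q : (0 : E).q = 0 := rfl
@[simp] lemma zero_u : (0 : E).u = 0 := rfl
@[simp] lemma zero_v : (0 : E).v = 0 := rfl
@[simp] lemma zero_c : (0 : E).c = 0 := rfl
@[simp] lemma zero_w : (0 : E).w = 0 := rfl
@[simp] lemma zero_z : (0 : E).z = 0 := rfl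
@[simp] lemma one_q : (1 : E).q = 1 := rfl
@[simp] lemma one_u : (1 : E).u = 0 := rfl
@[simp] lemma one_v : (1 : E).v = 0 := rfl
@[simp] lemma one_c : (1 : E).c = 0 := rfl
@[simp] lemma one_w : (1 : E).w = 0 := rfl
@[simp] lemma one_z : (1 : E).z = 0 := rfl
@[simp] lemma add_q (x y : E) : (x + y).q = x.q + y.q := rfl
@[simp] lemma add_u (x y : E) : (x + y).u = x.u + y.u := rfl
@[simp] lemma add_v (x y : E) : (x + y).v = x.v + y.v := rfl
@[simp] lemma add_c (x y : E) : (x + y).c = x.c + y.c := rfl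
@[simp] lemma add_w (x y : E) : (x + y).w = x.w + y.w := rfl
@[simp] lemma add_z (x y : E) : (x + y).z = x.z + y.z := rfl
@[simp] lemma neg_q (x : E) : (-x).q = -x.q := rfl
@[simp] lemma neg_u (x : E) : (-x).u = -x.u := rfl
@[simp] lemma neg_v (x : E) : (-x).v = -x.v := rfl
@[simp] lemma neg_c (x : E) : (-x).c = -x.c := rfl
@[simp] lemma neg_w (x : E) : (-x).w = -x.w := rfl
@[simp] lemma neg_z (x : E) : (-x).z = -x.z := rfl
@[simp] lemma mul_q (x y : E) : (x * y).q = x.q * y.q := rfl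
@[simp] lemma mul_u (x y : E) : (x * y).u = x.q * y.u + x.u * y.q := rfl
@[simp] lemma mul_v (x y : E) : (x * y).v = x.q * y.v + x.v * y.q := rfl
@[simp] lemma mul_c (x y : E) : (x * y).c = x.q * y.c + x.c * y.q := rfl
@[simp] lemma mul_w (x y : E) : (x * y).w =
  x.q * y.w + x.w * y.q + x.u * y.v + x.u * y.c + x.c * y.u := rfl
@[simp] lemma mul_z (x y : E) : (x * y).z =
  x.q * y.z + x.z * y.q + x.v * y.c + x.c * y.v := rfl

instance instRing : Ring E :=
  Ring.ofMinimalAxioms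
    (by intro a b c; ext <;> simp <;> ring)
    (by intro a; ext <;> simp)
    (by intro a; ext <;> simp)
    (by intro a b c; ext <;> simp <;> ring)
    (by intro a; ext <;> simp)
    (by intro a; ext <;> simp)
    (by intro a b c; ext <;> simp <;> ring)
    (by intro a b c; ext <;> simp <;> ring)

/-- Coordinates give an additive isomorphism with `Fin 6 → ℤ`. -/
def coords : E ≃+ (Fin 6 → ℤ) where
  toFun x := ![x.q, x.u, x.v, x.c, x.w, x.z]
  invFun f := ⟨f 0, f 1, f 2, f 3, f 4, f 5⟩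
  left_inv x := rfl
  right_inv f := by
    ext i
    fin_cases i <;> rfl
  map_add' x y := by
    ext i
    fin_cases i <;> rfl

lemma mem_center {x : E} (hu : x.u = 0) (hv : x.v = 0) : x ∈ Subring.center E := by
  rw [Subring.mem_center_iff]
  intro g
  ext <;> simp [hu, hv] <;> ring

end E

/-- The example: dual numbers over `E`, that is `E[ε]` with `ε` central and `ε ^ 2 = 0`. -/
abbrev D : Type := DualNumber E

lemma mem_center_D {x : D} (h1 : x.fst.u = 0) (h2 : x.fst.v = 0) (h3 : x.snd.u = 0)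
    (h4 : x.snd.v = 0) : x ∈ Subring.center D := by
  rw [Subring.mem_center_iff]
  intro g
  have e1 : x.fst ∈ Subring.center E := E.mem_center h1 h2
  have e2 : x.snd ∈ Subring.center E := E.mem_center h3 h4
  rw [Subring.mem_center_iff] at e1 e2
  apply TrivSqZeroExt.ext
  · simp only [TrivSqZeroExt.fst_mul]
    exact e1 _
  · simp only [TrivSqZeroExt.snd_mul, smul_eq_mul, MulOpposite.smul_eq_mul_unop,
      MulOpposite.unop_op]
    rw [e2, e1, add_comm]

@[simp] lemma fst_w_mul (x y : D) : (x * y).fst = x.fst * y.fst := TrivSqZeroExt.fst_mul x y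

lemma snd_mul_D (x y : D) : (x * y).snd = x.fst * y.snd + x.snd * y.fst := by
  rw [TrivSqZeroExt.snd_mul]
  rfl

/-- Every nonzero element of `D` has a nonzero right multiple of the shape `b ε`. -/
lemma exists_eps (a : D) (ha : a ≠ 0) :
    ∃ b : E, b ≠ 0 ∧ ((a = TrivSqZeroExt.inr b) ∨ (a * TrivSqZeroExt.inr 1 = TrivSqZeroExt.inr b)) := by
  by_cases h : a.fst = 0
  · refine ⟨a.snd, ?_, Or.inl ?_⟩
    · intro h2
      exact ha (TrivSqZeroExt.ext h h2)
    · exact TrivSqZeroExt.ext (by simp [h]) (by simp)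
  · refine ⟨a.fst, h, Or.inr ?_⟩
    apply TrivSqZeroExt.ext
    · simp
    · rw [snd_mul_D]; simp

open E in
lemma E_torsionFree (n : ℤ) (a : E) (hn : n ≠ 0) (h : n • a = 0) : a = 0 := by
  have h2 : n • coords a = 0 := by rw [← map_zsmul, h, map_zero]
  have h3 : coords a = 0 := (smul_eq_zero.mp h2).resolve_left hn
  exact coords.map_eq_zero_iff.mp h3

open E in
lemma E_centrallyEssential : CentrallyEssential E := by
  intro a ha
  by_cases hq : a.q = 0
  · by_cases huv : a.u = 0 ∧ a.v = 0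
    · exact ⟨1, a, Subring.one_mem _, mem_center huv.1 huv.2,
        fun h => by simpa using congrArg E.q h, ha, mul_one a⟩
    · refine ⟨⟨0, 0, 0, 1, 0, 0⟩, a * ⟨0, 0, 0, 1, 0, 0⟩, mem_center rfl rfl,
        mem_center (by simp) (by simp), fun h => ?_, fun h => ?_, rfl⟩
      · simpa using congrArg E.c h
      · apply huv
        have h1 := congrArg E.w h
        have h2 := congrArg E.z h
        simp at h1 h2
        exact ⟨h1, h2⟩
  · refine ⟨⟨0, 0, 0, 0, 1, 0⟩, a * ⟨0, 0, 0, 0, 1, 0⟩, mem_center rfl rfl,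
        mem_center (by simp) (by simp), fun h => ?_, fun h => ?_, rfl⟩
    · simpa using congrArg E.w h
    · have h1 := congrArg E.w h
      simp at h1
      exact hq h1

open E in
lemma E_mul_small (b : E) (hb : b ≠ 0) :
    ∃ e : E, b * e ≠ 0 ∧ (b * e).q = 0 ∧ (b * e).u = 0 ∧ (b * e).c = 0 := by
  by_cases hq : b.q = 0
  · by_cases huv : b.u = 0 ∧ b.v = 0
    · by_cases hc : b.c = 0
      · exact ⟨1, by rwa [mul_one], by simp [hq], by simp [huv.1], by simp [hc]⟩
      · refine ⟨⟨0, 1, 0, 0, 0, 0⟩, fun h => ?_, by simp [hq], by simp [hq], by simp⟩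
        have h1 := congrArg E.w h
        simp at h1
        exact hc h1
    · refine ⟨⟨0, 0, 0, 1, 0, 0⟩, fun h => ?_, by simp [hq], by simp [hq], by simp [hq]⟩
      apply huv
      have h1 := congrArg E.w h
      have h2 := congrArg E.z h
      simp at h1 h2
      exact ⟨h1, h2⟩
  · refine ⟨⟨0, 0, 0, 0, 1, 0⟩, fun h => ?_, by simp, by simp, by simp⟩
    have h1 := congrArg E.w h
    simp at h1
    exact hq h1

/-- The right ideal: elements `a + b ε` with `a` in the span of `v, z` and `b` in the span of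
`v, w, z`. -/
def I : Submodule Dᵐᵒᵖ D where
  carrier := {x | (x.fst.q = 0 ∧ x.fst.u = 0 ∧ x.fst.c = 0 ∧ x.fst.w = 0) ∧
    (x.snd.q = 0 ∧ x.snd.u = 0 ∧ x.snd.c = 0)}
  add_mem' := by
    rintro x y ⟨⟨h1, h2, h3, h4⟩, ⟨h5, h6, h7⟩⟩ ⟨⟨k1, k2, k3, k4⟩, ⟨k5, k6, k7⟩⟩
    refine ⟨⟨?_, ?_, ?_, ?_⟩, ⟨?_, ?_, ?_⟩⟩ <;> simp [*]
  zero_mem' := by
    refine ⟨⟨?_, ?_, ?_, ?_⟩, ⟨?_, ?_, ?_⟩⟩ <;> simp
  smul_mem' := by
    rintro s x ⟨⟨h1, h2, h3, h4⟩, ⟨h5, h6, h7⟩⟩
    rw [show s • x = x * s.unop from rfl]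
    refine ⟨⟨?_, ?_, ?_, ?_⟩, ⟨?_, ?_, ?_⟩⟩ <;> simp [snd_mul_D, *]

lemma mem_I (x : D) : x ∈ I ↔ (x.fst.q = 0 ∧ x.fst.u = 0 ∧ x.fst.c = 0 ∧ x.fst.w = 0) ∧
    (x.snd.q = 0 ∧ x.snd.u = 0 ∧ x.snd.c = 0) := Iff.rfl

lemma zsmul_coord (n : ℤ) (x : E) : (n • x).q = n * x.q ∧ (n • x).u = n * x.u ∧
    (n • x).c = n * x.c ∧ (n • x).w = n * x.w := by
  have h : E.coords (n • x) = n • E.coords x := map_zsmul E.coords n x
  refine ⟨congrFun h 0, congrFun h 1, congrFun h 3, congrFun h 4⟩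

open E in
theorem result : ∃ (R : Type) (_ : Ring R), TorsionFreeFiniteRank R ∧ CentrallyEssential R ∧
    ∃ I : Submodule Rᵐᵒᵖ R, EssentialRightIdeal I ∧
      (∀ (n : ℤ) (a : R), n ≠ 0 → n • a ∈ I → a ∈ I) ∧
      ∃ r : R, ∃ a ∈ I, r * a ∉ I := by
  refine ⟨D, inferInstance, ⟨?_, ?_⟩, ?_, I, ?_, ?_, ?_⟩
  · intro n a hn h
    apply TrivSqZeroExt.ext
    · exact E_torsionFree n a.fst hn (congrArg TrivSqZeroExt.fst h)
    · exact E_torsionFree n a.snd hn (congrArg TrivSqZeroExt.snd h)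
  · have : Module.Finite ℤ E := Module.Finite.equiv (coords.symm.toIntLinearEquiv)
    have : Module.Finite ℤ (E × E) := inferInstance
    have : Module.Finite ℤ D := this
    infer_instance
  · intro a ha
    obtain ⟨b, hb, h⟩ := exists_eps a ha
    obtain ⟨c, d, hc, hd, hc0, hd0, hbc⟩ := E_centrallyEssential b hb
    have hinr : ∀ e : E, e ∈ Subring.center E → TrivSqZeroExt.inr e ∈ Subring.center D := by
      intro e he
      rw [Subring.mem_center_iff] at he ⊢
      intro g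
      apply TrivSqZeroExt.ext
      · simp
      · rw [snd_mul_D, snd_mul_D]
        simpa using he g.fst
    have hinl : ∀ e : E, e ∈ Subring.center E → TrivSqZeroExt.inl e ∈ Subring.center D := by
      intro e he
      rw [Subring.mem_center_iff] at he ⊢
      intro g
      apply TrivSqZeroExt.ext
      · simpa using he g.fst
      · rw [snd_mul_D, snd_mul_D]
        simpa using he g.snd
    rcases h with h | h
    · refine ⟨TrivSqZeroExt.inl c, TrivSqZeroExt.inr d, hinl c hc, hinr d hd, ?_, ?_, ?_⟩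
      · intro h0
        exact hc0 (congrArg TrivSqZeroExt.fst h0)
      · intro h0
        exact hd0 (congrArg TrivSqZeroExt.snd h0)
      · rw [h]
        apply TrivSqZeroExt.ext
        · simp
        · rw [snd_mul_D]
          simpa using hbc
    · refine ⟨TrivSqZeroExt.inr c, TrivSqZeroExt.inr d, hinr c hc, hinr d hd, ?_, ?_, ?_⟩
      · intro h0
        exact hc0 (congrArg TrivSqZeroExt.snd h0)
      · intro h0
        exact hd0 (congrArg TrivSqZeroExt.snd h0)
      · have h1 : a.fst = b := by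
          have := congrArg TrivSqZeroExt.snd h
          rw [snd_mul_D] at this
          simpa using this
        apply TrivSqZeroExt.ext
        · simp
        · rw [snd_mul_D]
          simpa [h1] using hbc
  · intro J hJ hbot
    obtain ⟨x, hx, hx0⟩ := Submodule.exists_mem_ne_zero_of_ne_bot hJ
    obtain ⟨b, hb, h⟩ := exists_eps x hx0
    have hbJ : (TrivSqZeroExt.inr b : D) ∈ J := by
      rcases h with h | h
      · rw [← h]; exact hx
      · rw [← h]; exact J.smul_mem (MulOpposite.op (TrivSqZeroExt.inr 1)) hx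
    obtain ⟨e, he0, heq, heu, hec⟩ := E_mul_small b hb
    have hmul : (TrivSqZeroExt.inr b * TrivSqZeroExt.inl e : D) = TrivSqZeroExt.inr (b * e) := by
      apply TrivSqZeroExt.ext
      · simp
      · rw [snd_mul_D]; simp
    have hJ2 : (TrivSqZeroExt.inr (b * e) : D) ∈ J := by
      rw [← hmul]
      exact J.smul_mem (MulOpposite.op (TrivSqZeroExt.inl e)) hbJ
    have hI2 : (TrivSqZeroExt.inr (b * e) : D) ∈ I := by
      rw [mem_I]
      exact ⟨⟨rfl, rfl, rfl, rfl⟩, ⟨heq, heu, hec⟩⟩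
    have hmem : (TrivSqZeroExt.inr (b * e) : D) ∈ I ⊓ J := ⟨hI2, hJ2⟩
    rw [hbot, Submodule.mem_bot] at hmem
    exact he0 (congrArg TrivSqZeroExt.snd hmem)
  · intro n a hn h
    rw [mem_I] at h ⊢
    obtain ⟨⟨h1, h2, h3, h4⟩, ⟨h5, h6, h7⟩⟩ := h
    have f := zsmul_coord n a.fst
    have g := zsmul_coord n a.snd
    refine ⟨⟨?_, ?_, ?_, ?_⟩, ⟨?_, ?_, ?_⟩⟩
    · exact (mul_eq_zero.mp (f.1.symm.trans h1)).resolve_left hn
    · exact (mul_eq_zero.mp (f.2.1.symm.trans h2)).resolve_left hn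
    · exact (mul_eq_zero.mp (f.2.2.1.symm.trans h3)).resolve_left hn
    · exact (mul_eq_zero.mp (f.2.2.2.symm.trans h4)).resolve_left hn
    · exact (mul_eq_zero.mp (g.1.symm.trans h5)).resolve_left hn
    · exact (mul_eq_zero.mp (g.2.1.symm.trans h6)).resolve_left hn
    · exact (mul_eq_zero.mp (g.2.2.1.symm.trans h7)).resolve_left hn
  · refine ⟨TrivSqZeroExt.inl ⟨0, 1, 0, 0, 0, 0⟩, TrivSqZeroExt.inl ⟨0, 0, 1, 0, 0, 0⟩, ?_, ?_⟩
    · rw [mem_I]
      exact ⟨⟨rfl, rfl, rfl, rfl⟩, ⟨rfl, rfl, rfl⟩⟩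
    · rw [mem_I]
      rintro ⟨⟨-, -, -, h⟩, -⟩
      simp at h

end Pool.Agent.Results.MP_4595ea_al.EssentialRightNotIdeal
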